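import Pool.Agent.Helper3.TP.St
import Pool.Agent.Helper3.TL.DagW

/-!
Project TP (MP_86d903_lc): the constants of the local theorem, and the statements for a given size `κ`.
-/

open Finset
open MP86d903 (Valid Lit inside mem_inside pt flip Clause Ineq clauseIneq vsF ngF Refutation Rule)
open Helper80.SR (Exp Closed Cl Sm)
open Helper3.TL Helper3.TL.Dag

namespace Helper3.TP

def tau0 (D B : ℕ) : ℕ := 3 * B * popN D B + 1 + evN D B 0 + evN D B (evP B 0)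

def tauM (D B : ℕ) : ℕ := tau0 D B * (lamD D + 1) ^ (Nat.log 2 (3 * B) + 1)

def T2 (D B : ℕ) : ℕ :=
  evT D B (90 * tauM D B) (evP B 0) 0 +
    adjT D (90 * tauM D B) (evP B 0 + 90 * B * tauM D B + 6 * B)

def T1 (D B : ℕ) : ℕ :=
  evT D B (9 * tauM D B) 0 (T2 D B) + adjT D (9 * tauM D B) (9 * B * tauM D B + 1)

def starN (D B : ℕ) : ℕ := 9 * (3 * B * T1 D B + 1) + tauM D B

/-- The size of the local theorem. -/
def locK (D B : ℕ) : ℕ :=
  evS D B (90 * tauM D B) (evP B 0) + evS D B (9 * tauM D B) 0 +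
    3 * (evP B 0 + 90 * B * tauM D B + 6 * B) + 3 * (9 * B * tauM D B + 1) +
    171 * tauM D B + tightS D (3 * starN D B) (3 * starN D B * B + 1) + 9 * starN D B + 10

/-- MODULE PB. The constants are polynomial in `B`. Proof: call `f : ℕ → ℕ` good if `∃ E, ∀ B, f B ≤ (B + 2) ^ E`. Constants,
the identity, sums, products, powers with a fixed exponent of good functions are good; `fun B => ball D (f B)` is good
if `f` is (RAD (4)); `fun B => (lam + 1) ^ (Nat.log 2 (3 * B) + 1)` is good (RAD (5)). Unfold one definition after another. -/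
def PPB : Prop := ∀ D : ℕ, ∃ E : ℕ, ∀ B : ℕ, 3 * (locK D B + 1) ≤ (B + 2) ^ E

/-- The body of `StLocalD` (`Helper3.TL.Dag`) for given numbers. -/
def LocalD (B D κ : ℕ) : Prop := ∀ (n m : ℕ) (F : Fin m → Clause n)
    (π : Refutation F) (S : Set (Fin π.size)) (q : ℕ)
    (Sp : Fin π.size → Prop) (A : Finset (Fin n)) (ρ : Fin n → Bool) (i : Fin π.size),
    Env (vsF F) q D κ A → Valid (vsF F) (ngF F) ρ A →
    Viol (π.line i) (pt A ρ) →
    (∀ y x, Reach π S i y → Prem π x y → x ∈ S → ∀ R σ, Pt F q κ A ρ R σ →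
      ¬ Viol (π.line x) (pt R σ)) →
    (∀ d p c, Reach π S i d → π.rule d = .div p c → Sp d ∨
      IsSmall B (π.line d) ∨
      (∀ R σ, Pt F q κ A ρ R σ → ¬ Viol (π.line p) (pt R σ) → ¬ Viol (π.line d) (pt R σ))) →
    DConcl π S q κ Sp A ρ i

/-- The local theorem. -/
def PLocal : Prop := ∀ B D κ : ℕ, locK D B ≤ κ → LocalD B D κ

/-- The body of `StIndW` (`Helper3.TL.DagW`) for given numbers. -/
def IndW (B D κ : ℕ) : Prop := ∀ (n m : ℕ) (F : Fin m → Clause n) (π : Refutation F)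
    (q R₀ M₀ P w l K a : ℕ) (A₀ Hd : Finset (Fin n)) (ρ₀ : Fin n → Bool)
    (G Ro : Fin π.size → Prop) (X : Finset (Fin π.size)),
    Exp (vsF F) R₀ → 2 * (M₀ + 1) ≤ q → 2 * (M₀ + 1) + q ≤ R₀ →
    3 * (P + 4 * κ * K) + w + κ ≤ M₀ → 2 * (3 * (l + w) + Hd.card) ≤ P →
    2 * (P + 4 * κ * K) + q < R₀ →
    Closed (vsF F) q A₀ → Sm (vsF F) l A₀ → Valid (vsF F) (ngF F) ρ₀ A₀ →
    (∀ i ∉ Hd, (univ.filter (fun c => i ∈ vsF F c)).card ≤ D) →
    (∀ i, G i ∨ (univ.filter (fun v => (π.line i).coef v ≠ 0)).card ≤ w ∨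
      ∀ R σ, OKp F q M₀ A₀ ρ₀ R σ → ¬ Viol (π.line i) (pt R σ)) →
    (∀ d p c, G d → π.rule d = .div p c → Ro d ∨ (d ∈ X ∧ IsSmall B (π.line d)) ∨
      ∀ R σ, OKp F q M₀ A₀ ρ₀ R σ → ¬ Viol (π.line p) (pt R σ) → ¬ Viol (π.line d) (pt R σ)) →
    X.card < 2 ^ a → a ≤ K →
    (∀ i, G i → FewW π G (fun x => cost a (outs (Prem π) x)) (K - a) i) →
    (∀ i, G i → Few π G Ro K i) → False

/-- MODULE INDW. Copy of the proof of `hIndW` in `Pool/Agent/Helper3/TL/DagW.lean`: the line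
`obtain ⟨κ₁, hL⟩ := hL B D` is dropped, `hL` is the hypothesis, `refine ⟨3 * (κ₁ + 1), ?_⟩` becomes
`obtain rfl | ..` with a general `κ ≥ 3 * (κ₁ + 1)` (the proof uses only `3 * (κ₁ + 1) ≤ κ`; if it uses equality take
`κ = 3 * (κ₁ + 1)` first). -/
def PIndW : Prop := ∀ B D κ₁ κ : ℕ, LocalD B D κ₁ → κ = 3 * (κ₁ + 1) → IndW B D κ

end Helper3.TP
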