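import Pool.Agent.Helper3.TP.M_LOCAL2
import Pool.Agent.Helper1.TP.M_TIGHT
import Pool.Agent.Helper22.TP.M_SCAT
import Pool.Agent.Helper24.TP.M_FINE
import Pool.Agent.Helper24.TP.M_VPOP
import Pool.Agent.Helper26.TP.M_GREEDY
import Pool.Agent.Helper29.TP.M_BADN
import Pool.Agent.Helper36.TP.M_EVA
import Pool.Agent.Helper37.TP.M_RAD
import Pool.Agent.Helper39.TP.M_CONST
import Pool.Agent.Helper47.TP.M_ADJ2
import Pool.Agent.Helper50.TP.M_INDW
import Pool.Agent.Helper69.TP.M_CLO3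
import Pool.Agent.Helper72.TP.M_FARG
import Pool.Agent.Helper8.TP.M_FP
import Pool.Agent.Helper80.TP.M_SCALE
import Pool.Agent.Helper81.TP.M_FAM4
import Pool.Agent.Helper86.TP.M_FAR23

/-!
Project TP (MP_86d903_lc): the modules put together (up to three of them).
-/

namespace Helper3.TP

theorem hRad' : PRad := Pool.Agent.Helper37.TP.hRad

theorem hFarG' : PFarG := Helper72.TP.hFarG hRad'

theorem hFar2' : PFar2 := Helper86.TP.hFar2 hFarG' Helper86.TP.hCls

theorem hFar3' : PFar3 := Helper86.TP.hFar3 hFarG' Helper86.TP.hCls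

theorem hAdj1' : PAdj1 := Helper81.TP.hAdj1 hFar2'

theorem hAdj2' : PAdj2 := Helper47.TP.hAdj2 hRad' hAdj1'

theorem hNarr' : PNarr :=
  Helper1.TP.hNarr (Helper1.TP.hTight hRad' (Helper81.TP.hFam4 hFar2') hAdj1')

theorem hFine' : PFine :=
  Pool.Agent.Helper24.TP.hFine hFar3' Helper22.TP.hScat Helper26.TP.hGreedy

theorem hEvA' : PEvA :=
  Helper36.TP.hEvA hRad' hAdj2' Helper47.TP.hPool (Pool.Agent.Helper29.TP.hBadN hRad' hAdj1')

theorem hLocal' (hAl : PAlpha) (hB : PEvB) : PLocal :=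
  hLocal Helper80.TP.hScale Pool.Agent.Helper24.TP.hVpop (Helper8.TP.hFP hAl hFine')
    Helper69.TP.hClo3 hAdj2' hNarr' Helper39.TP.hConst (hEv hEvA' hB) Helper80.TL.hAx

theorem hIndW' (hAl : PAlpha) (hB : PEvB) (B D : ℕ) : IndW B D (3 * (locK D B + 1)) :=
  Helper50.TP.hIndW Helper3.TL.hClo2 Helper80.TL.hFam1 Helper80.TL.hFam3 Helper80.TL.hAx B D
    (locK D B) _ (hLocal' hAl hB B D _ le_rfl) rfl

end Helper3.TP
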