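import Pool.Agent.Helper3.TP.St2
import Pool.Agent.Helper80.TL.M_FAM3
import Pool.Agent.Helper80.TL.M_AX
import Pool.Agent.Helper3.TL.M_EVENT

/-! Project TP (MP_86d903_lc): the local theorem. -/

open Finset
open MP86d903 (Valid Lit inside mem_inside pt flip Clause Ineq clauseIneq vsF ngF Refutation Rule)
open Helper80.SR (Exp Closed Cl Sm)
open Helper3.TL Helper3.TL.Dag

namespace Helper3.TP

section
variable {ι V : Type} [DecidableEq ι] [Fintype ι] [DecidableEq V] [Fintype V]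
  {vs ng : ι → Finset V} {q D κ : ℕ} {A : Finset V}

theorem mem_bad {ρ : V → Bool} {a : V → ℤ} {h : ℕ} {i : V} : i ∈ bad vs ng q A ρ a h ↔
    i ∉ A ∧ ∃ σ₁, Ext vs ng q A 3 A ρ (Cl vs q (insert i A)) σ₁ ∧
    ¬ (h : ℤ) ∣ ∑ j ∈ Cl vs q (insert i A) \ A, a j * sg (σ₁ j) := by
  classical
  simp only [bad, mem_filter, mem_univ, true_and]

theorem SC.closed3 (h : SC vs 3 q A) : Closed vs q A := by
  intro S hS hq hc
  have h1 := h S hS hq hc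
  have h2 := card_pos.mpr hS
  omega

theorem FineAdj.mono {ρ : V → Bool} {a : V → ℤ} {g : ℕ} {A' : Finset V} {y y' B : ℕ}
    (h : FineAdj vs ng q κ A ρ a g A' y B) (hy : y' ≤ y) : FineAdj vs ng q κ A ρ a g A' y' B :=
  fun Y ρY k c h1 h2 h3 h4 h5 => h Y ρY k c h1 h2 h3 (h4.trans hy) h5

/-- Class sums are small. -/
theorem class_sum_le (hE : Env vs q D κ A) (hκ : 3 ≤ κ) {a : V → ℤ} {B : ℕ}
    (ha : ∀ i, |a i| ≤ B) (i : V) (σ : V → Bool) :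
    |∑ j ∈ Cl vs q (insert i A) \ A, a j * sg (σ j)| ≤ 3 * B := by
  have h1 : |∑ j ∈ Cl vs q (insert i A) \ A, a j * sg (σ j)| ≤
      B * (Cl vs q (insert i A) \ A).card := sum_sg_le ha σ
  have h2 : ((Cl vs q (insert i A) \ A).card : ℤ) ≤ 3 := by
    exact_mod_cast card_class_le hClo1 hE i hκ
  have h3 : (B : ℤ) * ((Cl vs q (insert i A) \ A).card : ℤ) ≤ B * 3 :=
    mul_le_mul_of_nonneg_left h2 (Int.natCast_nonneg B)
  linarith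

theorem exists_scale (hSc : PScale) (hE : Env vs q D κ A) (hκ : 3 ≤ κ) {ρ : V → Bool}
    {a : V → ℤ} {B : ℕ} (ha : ∀ i, |a i| ≤ B) (hbig : tauM D B < (bad vs ng q A ρ a 0).card) :
    ∃ g t, 1 ≤ g ∧ g ≤ 3 * B ∧ tau0 D B ≤ t ∧ t ≤ tauM D B ∧
      (bad vs ng q A ρ a g).card ≤ t ∧
      ∀ h, 1 ≤ h → ¬ h ∣ g → lamD D * t < (bad vs ng q A ρ a h).card := by
  refine hSc (fun h => (bad vs ng q A ρ a h).card) (3 * B) (lamD D) (tau0 D B)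
    (Nat.log 2 (3 * B) + 1) ?_ ?_ ?_ (Nat.lt_pow_succ_log_self (by norm_num) _) hbig
  · change (bad vs ng q A ρ a 1).card = 0
    rw [card_eq_zero, eq_empty_iff_forall_notMem]
    intro i hi
    obtain ⟨-, σ₁, -, h⟩ := mem_bad.mp hi
    exact h (by simp)
  · intro g h
    refine (card_le_card ?_).trans (card_union_le (bad vs ng q A ρ a g) (bad vs ng q A ρ a h))
    intro i hi
    obtain ⟨hi1, σ₁, hσ₁, hnd⟩ := mem_bad.mp hi
    by_cases h1 : (g : ℤ) ∣ ∑ j ∈ Cl vs q (insert i A) \ A, a j * sg (σ₁ j)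
    · by_cases h2 : (h : ℤ) ∣ ∑ j ∈ Cl vs q (insert i A) \ A, a j * sg (σ₁ j)
      · exfalso
        apply hnd
        rw [Int.natCast_dvd] at h1 h2 ⊢
        exact Nat.lcm_dvd h1 h2
      · exact mem_union_right _ (mem_bad.mpr ⟨hi1, σ₁, hσ₁, h2⟩)
    · exact mem_union_left _ (mem_bad.mpr ⟨hi1, σ₁, hσ₁, h1⟩)
  · intro g hg
    refine card_le_card ?_
    intro i hi
    obtain ⟨hi1, σ₁, hσ₁, hnd⟩ := mem_bad.mp hi
    refine mem_bad.mpr ⟨hi1, σ₁, hσ₁, fun h => hnd ?_⟩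
    have h1 := class_sum_le hE hκ ha i σ₁
    have h2 : |∑ j ∈ Cl vs q (insert i A) \ A, a j * sg (σ₁ j)| < (g : ℤ) := by
      have : ((3 * B : ℕ) : ℤ) < g := by exact_mod_cast hg
      push_cast at this
      omega
    rw [Int.eq_zero_of_abs_lt_dvd h h2]
    simp

end

/-- The numerical facts used in the proof of the local theorem. -/
structure Facts (D B κ : ℕ) : Prop where
  k3 : 3 ≤ κ
  k81 : 81 * tauM D B ≤ κ
  k90 : 90 * tauM D B ≤ κ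
  s1 : evS D B (9 * tauM D B) 0 ≤ κ
  s2 : evS D B (90 * tauM D B) (evP B 0) ≤ κ
  f900 : 900 * tauM D B + 3 * fineN B ≤ κ
  u1 : 9 * tauM D B + (9 * B * tauM D B + 1) * 3 ≤ κ
  u2 : 90 * tauM D B + (evP B 0 + 90 * B * tauM D B + 6 * B) * 3 ≤ κ
  ti : tightS D (3 * starN D B) (3 * starN D B * B + 1) ≤ κ
  st : 9 * starN D B + 3 ≤ κ
  st1 : 9 * (3 * B * T1 D B + 1) ≤ starN D B
  st2 : tauM D B ≤ starN D B
  t1a : adjT D (9 * tauM D B) (9 * B * tauM D B + 1) ≤ T1 D B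
  t1b : evT D B (9 * tauM D B) 0 (T2 D B) ≤ T1 D B
  t2a : adjT D (90 * tauM D B) (evP B 0 + 90 * B * tauM D B + 6 * B) ≤ T2 D B
  t2b : evT D B (90 * tauM D B) (evP B 0) 0 ≤ T2 D B
  n0 : ∀ t, tau0 D B ≤ t → 3 * B * popN D B + 1 ≤ t ∧ evN D B 0 ≤ t ∧ evN D B (evP B 0) ≤ t

theorem facts {D B κ : ℕ} (hκ : locK D B ≤ κ) : Facts D B κ := by
  have h1 : 900 * tauM D B + 3 * fineN B ≤ evS D B (90 * tauM D B) (evP B 0) := by
    unfold evS evK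
    generalize tauM D B = τ
    generalize evN D B (evP B 0) = a
    generalize evP B (evP B 0) = b
    omega
  unfold locK at hκ
  have k1 : evS D B (90 * tauM D B) (evP B 0) ≤ κ := by omega
  refine ⟨by omega, by omega, by omega, by omega, k1, h1.trans k1, by omega, by omega,
    by omega, by omega, Nat.le_add_right _ _, Nat.le_add_left _ _, Nat.le_add_left _ _,
    Nat.le_add_right _ _, Nat.le_add_left _ _, Nat.le_add_right _ _, ?_⟩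
  intro t ht
  unfold tau0 at ht
  generalize 3 * B * popN D B = a at *
  generalize evN D B 0 = b at *
  generalize evN D B (evP B 0) = c at *
  refine ⟨by omega, by omega, by omega⟩

/-- EV from its two parts. -/
theorem hEv (hA : PEvA) (hB : PEvB) : PEv := by
  intro ι V _ _ _ _ vs ng q D κ B Ym Hv T T' g A A' Rq ρ σq a w c cw x Q hE hκ ha hw hc hcw hAA'
    hSC hY hg1 hg3 hcl hfine hQ hcov hx1 hx3 hT hP hv hw1 hgood hq hAq hqg hq0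
  obtain ⟨h1, y, hy1, hy3, hP', hbad⟩ := hA ι V vs ng q D κ B Ym Hv T T' g A A' ρ a w c cw x Q hE
    hκ ha hw hAA' hSC hY hg1 hg3 hQ hcov hx1 hx3 hT hP hv hw1 hgood
  obtain ⟨h2, γ, A'', h3, h4, h5, h6, h7, h8⟩ := hB ι V vs ng q D κ B Ym Hv _ g A A' Rq ρ σq a w c
    cw x y Q hE hκ ha hc hcw hAA' hSC hY hg1 hg3 hcl hfine hQ hx1 hx3 hy1 hy3
    (Nat.le_add_right _ T') hP' hbad hv hgood hq hAq hqg hq0
  refine ⟨h2, h1, γ, y, A'', h3, h4, h5, h6, h7, h8, hy1, hy3, ?_⟩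
  obtain ⟨U, s, u1, u2⟩ := hP'
  refine ⟨fun i => U (Fin.castLE (Nat.le_add_left _ _) i),
    fun i => s (Fin.castLE (Nat.le_add_left _ _) i),
    fun i j hij => u1 _ _ (fun h3 => hij (Fin.castLE_injective _ h3)), fun i => ?_⟩
  have u3 := u2 (Fin.castLE (Nat.le_add_left _ _) i)
  exact ⟨u3.1, u3.2.1, u3.2.2.1, u3.2.2.2.1, u3.2.2.2.2.2, u3.2.2.2.2.2⟩

section
variable {ι V : Type} [DecidableEq ι] [Fintype ι] [DecidableEq V] [Fintype V]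
  {vs ng : ι → Finset V} {q D κ : ℕ} {A : Finset V}

theorem lv_congr {a : V → ℤ} {c : ℤ} {R : Finset V} {σ σ' : V → Bool}
    (h : ∀ i ∈ R, σ i = σ' i) : lv a c R σ = lv a c R σ' := by
  unfold lv
  congr 1
  refine sum_congr rfl (fun v _ => ?_)
  congr 1
  unfold pt
  by_cases hv : v ∈ R
  · rw [if_pos hv, if_pos hv, h v hv]
  · rw [if_neg hv, if_neg hv]

theorem lv_const (a : V → ℤ) (c : ℤ) (R : Finset V) (σ : V → Bool) :
    lv a c R σ = lv a 0 R σ + c := by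
  unfold lv
  ring

/-- Fine adjustments for the second line. -/
theorem fine_second (hK : PConst) (hE : Env vs q D κ A) (hκ3 : 3 ≤ κ) {ρ : V → Bool}
    {A₀ A₁ : Finset V} (hAA₁ : A ⊆ A₁) (hA₀₁ : A₀ ⊆ A₁) {a₀ a₁ : V → ℤ} {g γ y B : ℕ}
    (hg : 1 ≤ g) (hfine : FineAdj vs ng q κ A ρ a₀ g A₀ y B) (hy : y + 3 * fineN B ≤ κ)
    (hcl₁ : ∀ i ∉ A₁, ∀ σ₁, Ext vs ng q A 3 A ρ (Cl vs q (insert i A)) σ₁ → ∃ z : ℤ,
        ∑ j ∈ Cl vs q (insert i A) \ A, a₀ j * sg (σ₁ j) = g * z ∧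
        ∑ j ∈ Cl vs q (insert i A) \ A, a₁ j * sg (σ₁ j) = γ * z) :
    FineAdj vs ng q κ A ρ a₁ γ A₁ y B := by
  intro Y ρY k c h1 h2 h3 h4 h5
  obtain ⟨t1, -⟩ := Helper80.TL.hFam1 ι V vs ng q D κ A hE
  obtain ⟨R, σ, h6, h7⟩ := hfine Y ρY k 0 (hA₀₁.trans h1) h2 h3 h4 h5
  refine ⟨R, σ, h6, ?_⟩
  have hR := t1 _ _ _ _ _ _ _ _ h3 h6
  have hR' : Ext vs ng q A κ A ρ R σ := hR.mono (by omega)
  have h8 := hK ι V vs ng q D κ A Y R ρ σ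
    (fun i => g * a₁ i - γ * a₀ i) 0 0 hE hκ3 hR' (hAA₁.trans h1) h6.1 h2.closed3 (by
      intro i hi σ' hσ'
      have hi1 : i ∉ A₁ := fun h => (mem_sdiff.mp hi).2 (h1 h)
      obtain ⟨z, hz1, hz2⟩ := hcl₁ i hi1 σ' hσ'
      have h9 : ∑ j ∈ Cl vs q (insert i A) \ A, (g * a₁ j - γ * a₀ j) * sg (σ' j) =
          g * ∑ j ∈ Cl vs q (insert i A) \ A, a₁ j * sg (σ' j) -
          γ * ∑ j ∈ Cl vs q (insert i A) \ A, a₀ j * sg (σ' j) := by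
        rw [mul_sum, mul_sum, ← sum_sub_distrib]
        exact sum_congr rfl (fun j _ => by ring)
      rw [h9, hz1, hz2]
      exact ⟨0, by ring⟩)
  rw [zero_dvd_iff] at h8
  have h9 : ∀ R' σ', lv (fun i => g * a₁ i - γ * a₀ i) 0 R' σ' =
      g * lv a₁ 0 R' σ' - γ * lv a₀ 0 R' σ' := by
    intro R' σ'
    have := lv_lin a₀ a₁ 0 0 g γ R' σ'
    simpa using this
  rw [h9, h9, lv_congr (a := a₀) (R := Y) h6.2.2.2.1, lv_congr (a := a₁) (R := Y) h6.2.2.2.1,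
    h7] at h8
  have h11 : (g : ℤ) * (lv a₁ 0 R σ - lv a₁ 0 Y ρY - k * γ) = 0 := by linarith
  have h12 : lv a₁ 0 R σ = lv a₁ 0 Y ρY + k * γ := by
    rcases mul_eq_zero.mp h11 with h | h
    · omega
    · linarith
  rw [lv_const a₁ c R σ, lv_const a₁ c Y ρY, h12]
  ring

/-- Values of functionals at extensions. -/
theorem lv_bnd (hE : Env vs q D κ A) {ρ : V → Bool} {a : V → ℤ} (e : ℤ) {B : ℕ}
    (hb : ∀ v, |a v| ≤ B) {M : ℕ} {R : Finset V} {σ : V → Bool}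
    (h : Ext vs ng q A M A ρ R σ) : |lv a e R σ - lv a e A ρ| ≤ B * M := by
  obtain ⟨-, -, -, -, t5, -⟩ := Helper80.TL.hFam1 ι V vs ng q D κ A hE
  rw [(t5 _ _ _ _ _ a e h).1, add_sub_cancel_left]
  have h3 : |∑ i ∈ R \ A, a i * sg (σ i)| ≤ B * (R \ A).card := sum_sg_le hb σ
  refine h3.trans (mul_le_mul_of_nonneg_left ?_ (Int.natCast_nonneg B))
  exact_mod_cast h.2.2.1

/-- Pushing a functional down over a closed set. -/
theorem push_down (hA2 : PAdj2) (hE : Env vs q D κ A) {ρ : V → Bool} {a : V → ℤ} {e : ℤ}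
    {B M J T : ℕ} {C : Finset V} (hAC : A ⊆ C) (hC : Closed vs q C) (hCM : (C \ A).card ≤ M)
    (hb : ∀ v, |a v| ≤ B) {x V₀ L : ℤ} (hx : 1 ≤ x) (hV : lv a e A ρ ≤ V₀)
    (hJ : V₀ + B * M + L ≤ J) (hT : adjT D M J ≤ T) (hP : Pool vs ng q A T 3 a a x x)
    (hκ : M + J * 3 ≤ κ) :
    ∃ R σ, Ext vs ng q A κ A ρ R σ ∧ C ⊆ R ∧ lv a e R σ ≤ -L := by
  obtain ⟨t1, -, -, t4, -, -⟩ := Helper80.TL.hFam1 ι V vs ng q D κ A hE
  obtain ⟨ρ₀, hρ₀⟩ := t4 M A ρ C (subset_refl A) hE.closed' hAC hC hCM (by omega)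
  obtain ⟨R₂, σ₂, h1, h2, -⟩ := hA2 ι V vs ng q D κ M J T A C ρ₀ a a x x (-(J : ℤ)) hE hAC
    hC hCM (by rw [abs_neg, Nat.abs_cast]) hT hP
  refine ⟨R₂, σ₂, (t1 _ _ _ _ _ _ _ _ hρ₀ h1).mono hκ, h1.1, ?_⟩
  rw [h2]
  have h3 := (abs_le.mp (lv_bnd hE e hb hρ₀)).2
  have h6 : (J : ℤ) * 1 ≤ J * x := mul_le_mul_of_nonneg_left hx (Int.natCast_nonneg _)
  linarith

/-- The case of few nonzero classes. -/
theorem const_case (hK : PConst) (hE : Env vs q D κ A) {ρ : V → Bool} {a : V → ℤ} {c : ℤ} {N : ℕ}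
    (hN : (bad vs ng q A ρ a 0).card ≤ N) (hNκ : 9 * N + 3 ≤ κ) (hc : Odd c)
    (h0 : lv a c A ρ = 0) : ∃ C σ₂, Ext vs ng q A (3 * N) A ρ C σ₂ ∧
      ∀ R₁ σ₁, Ext vs ng q A κ C σ₂ R₁ σ₁ → lv a c R₁ σ₁ ≤ -1 := by
  obtain ⟨t1, t2, t3, t4, t5, t6⟩ := Helper80.TL.hFam1 ι V vs ng q D κ A hE
  set Bad := bad vs ng q A ρ a 0 with hBad
  set C := Cl vs q (A ∪ Bad) with hCdef
  have hCc : Closed vs q C := Helper80.SR.closed_Cl q _
  have hAC : A ⊆ C := subset_union_left.trans (Helper80.SR.subset_Cl q _)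
  have hBC : Bad ⊆ C := subset_union_right.trans (Helper80.SR.subset_Cl q _)
  have hCcard : (C \ A).card ≤ 3 * N := by
    have hAA : (A \ A).card = 0 := by simp
    have h1 := hClo1 ι V vs q D κ A A Bad hE (subset_refl A) (by
      rw [hAA]
      omega)
    rw [hAA] at h1
    rw [hCdef]
    omega
  obtain ⟨σ₁, hσ₁⟩ := t4 (3 * N) A ρ C (subset_refl A) hE.closed' hAC hCc hCcard (by omega)
  obtain ⟨σ₂, hσ₂, hle0⟩ : ∃ σ₂, Ext vs ng q A (3 * N) A ρ C σ₂ ∧ lv a c C σ₂ ≤ 0 := by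
    have h5 := t5 _ _ _ _ _ a c hσ₁
    rw [h0] at h5
    by_cases hs : ∑ i ∈ C \ A, a i * sg (σ₁ i) ≤ 0
    · exact ⟨σ₁, hσ₁, by rw [h5.1]; omega⟩
    · exact ⟨flip A σ₁, t2 _ _ _ _ _ hσ₁, by rw [h5.2]; omega⟩
  have hgoodC : ∀ i ∉ C, ∀ σ', Ext vs ng q A 3 A ρ (Cl vs q (insert i A)) σ' →
      (0 : ℤ) ∣ ∑ j ∈ Cl vs q (insert i A) \ A, a j * sg (σ' j) := by
    intro i hi σ' h
    by_contra hcon
    exact hi (hBC (mem_bad.mpr ⟨fun h' => hi (hAC h'), σ', h, by simpa using hcon⟩))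
  have hlvC : ∀ R₁ σ₁, Ext vs ng q A κ C σ₂ R₁ σ₁ → lv a c R₁ σ₁ = lv a c C σ₂ := by
    intro R₁ σ₁ h
    have hR := t1 _ _ _ _ _ _ _ _ hσ₂ h
    have h8 := hK ι V vs ng q D κ A C R₁ ρ σ₁ a c 0 hE (by omega) hR hAC h.1
      hCc (fun i hi => hgoodC i (mem_sdiff.mp hi).2)
    rw [zero_dvd_iff, lv_congr (R := C) h.2.2.2.1] at h8
    omega
  -- the value is odd
  have hodd : Odd (lv a c C σ₂) := by
    obtain ⟨N', h1, -⟩ := Helper80.TL.hFam3 ι V vs ng q D κ A C σ₂ κ a a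
      c c 0 0 hE hAC hCc (by omega) le_rfl hc hc (by
        intro i _ σ' hσ'
        have h2 := hlvC _ _ hσ'
        rw [(t5 _ _ _ _ _ a c hσ').1] at h2
        exact ⟨0, by linarith, by linarith⟩)
    rw [zero_mul, add_zero] at h1
    rcases Int.even_or_odd (lv a c C σ₂) with h2 | h2
    · exact absurd h1 (Int.not_even_iff_odd.mpr h2.add_one)
    · exact h2
  refine ⟨C, σ₂, hσ₂, fun R₁ σ₁ h => ?_⟩
  rw [hlvC R₁ σ₁ h]
  obtain ⟨r, hr⟩ := hodd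
  omega

/-- The case of many nonzero classes. -/
theorem many_case (hSc : PScale) (hVp : PVpop) (hFP : PFP) (hC3 : PClo3) (hE : Env vs q D κ A)
    {ρ : V → Bool} {a : V → ℤ} {B : ℕ} (hf : Facts D B κ) (ha : ∀ i, |a i| ≤ B)
    (hbig : starN D B < (bad vs ng q A ρ a 0).card) :
    ∃ (g t : ℕ) (A₀ : Finset V) (x : ℤ), 1 ≤ g ∧ g ≤ 3 * B ∧ tau0 D B ≤ t ∧ t ≤ tauM D B ∧
      A ⊆ A₀ ∧ SC vs 3 q A₀ ∧ (A₀ \ A).card ≤ 9 * t ∧
      (∀ i ∉ A₀, ∀ σ₁, Ext vs ng q A 3 A ρ (Cl vs q (insert i A)) σ₁ →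
        (g : ℤ) ∣ ∑ j ∈ Cl vs q (insert i A) \ A, a j * sg (σ₁ j)) ∧
      FineAdj vs ng q κ A ρ a g A₀ (900 * t) B ∧ 1 ≤ x ∧ x ≤ 3 * B ∧
      Pool vs ng q A (T1 D B) 3 a a x x := by
  obtain ⟨g, t, hg1, hg3, ht0, htτ, hbg, hbh⟩ := exists_scale hSc hE hf.k3 ha
    (lt_of_le_of_lt hf.st2 hbig)
  obtain ⟨x, hx1, hx3, hPx⟩ := hVp ι V vs ng q D κ B (T1 D B) A ρ a hE hf.k3 ha
    (lt_of_le_of_lt hf.st1 hbig)
  have hcardX : ((A ∪ bad vs ng q A ρ a g) \ A).card ≤ t := by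
    refine le_trans (card_le_card ?_) hbg
    intro v hv
    obtain ⟨h1, h2⟩ := mem_sdiff.mp hv
    exact (mem_union.mp h1).resolve_left h2
  have h81 : 81 * t ≤ κ := (Nat.mul_le_mul_left 81 htτ).trans hf.k81
  obtain ⟨A₀, hSC₀, hXA₀, hA₀c⟩ := hC3 ι V vs q D κ A (A ∪ bad vs ng q A ρ a g) hE
    subset_union_left ((Nat.mul_le_mul_left 81 hcardX).trans h81)
  have hAA₀ : A ⊆ A₀ := subset_union_left.trans hXA₀
  have hbA₀ : bad vs ng q A ρ a g ⊆ A₀ := subset_union_right.trans hXA₀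
  refine ⟨g, t, A₀, x, hg1, hg3, ht0, htτ, hAA₀, hSC₀,
    hA₀c.trans (Nat.mul_le_mul_left 9 hcardX), ?_,
    hFP ι V vs ng q D κ B g t A A₀ ρ a hE hf.k3 ha hg1 (hf.n0 t ht0).1 hAA₀ hbA₀ hbh, hx1, hx3,
    hPx⟩
  intro i hi σ₁ hσ₁
  by_contra hnd
  exact hi (hbA₀ (mem_bad.mpr ⟨fun h => hi (hAA₀ h), σ₁, hσ₁, hnd⟩))

end

/-- Residues in `[1, g]`. -/
theorem exists_res {g : ℕ} (hg : 1 ≤ g) (z : ℤ) :
    ∃ r : ℤ, (1 ≤ r ∧ r ≤ g) ∧ (g : ℤ) ∣ z + r := by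
  have hg0 : (0 : ℤ) < g := by exact_mod_cast hg
  have hm0 : 0 ≤ (-z - 1) % g := Int.emod_nonneg _ hg0.ne'
  have hm1 : (-z - 1) % g < g := Int.emod_lt_of_pos _ hg0
  refine ⟨(-z - 1) % g + 1, ⟨by omega, by omega⟩, ?_⟩
  have h1 := Int.mul_ediv_add_emod (-z - 1) g
  exact ⟨-((-z - 1) / g), by rw [mul_neg]; linarith⟩

theorem exists_res' {g : ℕ} (hg : 1 ≤ g) {z : ℤ} (hz : z ≤ -1) :
    ∃ r : ℤ, (1 ≤ r ∧ r ≤ g) ∧ z ≤ -r ∧ (g : ℤ) ∣ z + r := by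
  have hg0 : (0 : ℤ) < g := by exact_mod_cast hg
  obtain ⟨r, ⟨h1, h2⟩, h3⟩ := exists_res hg z
  refine ⟨r, ⟨h1, h2⟩, ?_, h3⟩
  obtain ⟨k, hk⟩ := h3
  by_contra hcon
  rw [not_le] at hcon
  have h5 : 0 < k := by
    by_contra h6
    rw [not_lt] at h6
    have : (g : ℤ) * k ≤ 0 := mul_nonpos_of_nonneg_of_nonpos hg0.le h6
    omega
  have h6 : (g : ℤ) * 1 ≤ g * k := mul_le_mul_of_nonneg_left (by omega) hg0.le
  omega

/-- Odd residues in `[1, 2 γ]`. -/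
theorem exists_res2 {γ : ℕ} (hγ : Odd γ) (z : ℤ) :
    ∃ r : ℤ, (Odd r ∧ 1 ≤ r ∧ r ≤ 2 * γ) ∧ (γ : ℤ) ∣ z + r := by
  obtain ⟨r, ⟨h1, h2⟩, h3⟩ := exists_res hγ.pos z
  rcases Int.even_or_odd r with h4 | h4
  · refine ⟨r + γ, ⟨h4.add_odd (by exact_mod_cast hγ), by omega, by omega⟩, ?_⟩
    rw [← add_assoc]
    exact dvd_add h3 (dvd_refl _)
  · exact ⟨r, ⟨h4, by omega, by omega⟩, h3⟩

end Helper3.TP
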