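import Pool.Agent.Helper3.TP.M_LOCAL

/-! Project TP (MP_86d903_lc): the local theorem. -/

open Finset
open MP86d903 (Valid Lit inside mem_inside pt flip Clause Ineq clauseIneq vsF ngF Refutation Rule)
open Helper80.SR (Exp Closed Cl Sm)
open Helper3.TL Helper3.TL.Dag

namespace Helper3.TP

attribute [local irreducible] rad ball adjT tightN tightK tightS badN fineN popN lamD evP evN evK
  evJ evS evT tau0 tauM T2 T1 starN locK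

theorem hLocal (hSc : PScale) (hVp : PVpop) (hFP : PFP) (hC3 : PClo3) (hA2 : PAdj2) (hNa : PNarr)
    (hK : PConst) (hEv : PEv) (hAx : StAx) : PLocal := by
  intro B D κ hκ n m F π St q Sp A ρ i hE hval hviol hstop hdiv
  classical
  have hf := facts hκ
  clear hκ
  obtain ⟨t1, t2, t3, t4, t5, t6⟩ := Helper80.TL.hFam1 (Fin m) (Fin n) (vsF F) (ngF F) q D κ A hE
  have hq1 : 1 ≤ q := by
    obtain ⟨M₀, R₀, -, h, -, -⟩ := hE.big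
    omega
  have hAc : Closed (vsF F) q A := hE.closed'
  have hPtA : Pt F q κ A ρ A ρ := ⟨subset_refl _, hAc, by simp, hval, fun _ _ => rfl⟩
  have hPt : ∀ R σ, Ext (vsF F) (ngF F) q A κ A ρ R σ → Pt F q κ A ρ R σ := fun R σ h =>
    ⟨h.1, h.2.1, h.2.2.1, t6 _ _ _ _ _ h hval, h.2.2.2.1⟩
  obtain ⟨d₀, p₀, c₀, hd₀, hr₀, hv₀, hsat, hnv₀⟩ := dag2 (S := St) (hAx n m F q A ρ hq1 hAc hval)
    (fun y x h1 h2 h3 => hstop y x h1 h2 h3 A ρ hPtA) hviol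
  have hp₀ : Prem π p₀ d₀ := by
    unfold Prem
    rw [hr₀]
    rfl
  rcases hdiv d₀ p₀ c₀ hd₀ hr₀ with hna | hbd | hcr
  · right
    exact ⟨d₀, p₀, c₀, hd₀, hr₀, hna, A, ρ, hPtA, hv₀⟩
  swap
  · exact absurd hv₀ (hcr A ρ hPtA hnv₀)
  have hlvL0 : lvL (π.line d₀) (pt A ρ) = 0 := (div_values hr₀ (pt A ρ)).1 hv₀ hnv₀
  obtain ⟨a₀, e₀, ha₀, he₀, kv1, kv2, kv3⟩ := small_div hr₀ hbd hlvL0
  have hlv0 : lv a₀ e₀ A ρ = 0 := kv2 _ _ hlvL0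
  -- going up to the premise of a division violated at some points
  have hgo : ∀ {x p : Fin π.size} {c : ℕ}, Reach π St i x → π.rule x = .div p c →
      (∃ R σ, Pt F q κ A ρ R σ ∧ Viol (π.line p) (pt R σ)) → p ∉ St ∧ Reach π St i p := by
    rintro x p c hx hr ⟨R, σ, h1, h2⟩
    have hpx : Prem π p x := by
      unfold Prem
      rw [hr]
      rfl
    have : p ∉ St := fun h => hstop x p hx hpx h R σ h1 h2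
    exact ⟨this, .step hx hpx this⟩
  -- the lines below `d₀` are satisfied at `(A, ρ)`
  have hlow : ∀ s, Reach π St i s → s < d₀ → ∀ (a : Fin n → ℤ) (e : ℤ),
      (∀ R σ, Viol (π.line s) (pt R σ) ↔ lv a e R σ ≤ 0) → 1 ≤ lv a e A ρ := by
    intro s hs hs' a e hform
    have h1 := hsat s hs hs'
    rw [hform, not_le] at h1
    omega
  by_cases hbig : starN D B < (bad (vsF F) (ngF F) q A ρ a₀ 0).card
  · -- (W)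
    obtain ⟨g, t, A₀, x, hg1, hg3, ht0, htτ, hAA₀, hSC₀, hA₀9, hcl₀, hfine, hx1, hx3, hPx⟩ :=
      many_case hSc hVp hFP hC3 hE hf ha₀ hbig
    obtain ⟨n1, n2, n3⟩ := hf.n0 t ht0
    have hA₀M : (A₀ \ A).card ≤ 9 * tauM D B := hA₀9.trans (Nat.mul_le_mul_left 9 htτ)
    -- first step up
    have hne₁ := push_down hA2 hE (ρ := ρ) (e := e₀) (V₀ := 0) (L := 1) hAA₀ hSC₀.closed3 hA₀M ha₀
      hx1 hlv0.le (by push_cast; linarith) hf.t1a hPx hf.u1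
    have hprem : ∀ R₁ σ₁, (Ext (vsF F) (ngF F) q A κ A ρ R₁ σ₁ ∧ A₀ ⊆ R₁ ∧
        lv a₀ e₀ R₁ σ₁ ≤ -1) → Viol (π.line p₀) (pt R₁ σ₁) :=
      fun R₁ σ₁ h => kv3 _ _ h.2.2
    obtain ⟨-, hip₀⟩ : p₀ ∉ St ∧ Reach π St i p₀ := by
      obtain ⟨R₁, σ₁, h1⟩ := hne₁
      exact hgo hd₀ hr₀ ⟨R₁, σ₁, hPt _ _ h1.1, hprem R₁ σ₁ h1⟩
    rcases d_step hAx hq1 hip₀ hstop hdiv
      (fun R₁ σ₁ => Ext (vsF F) (ngF F) q A κ A ρ R₁ σ₁ ∧ A₀ ⊆ R₁ ∧ lv a₀ e₀ R₁ σ₁ ≤ -1)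
      (fun R₁ σ₁ h => hPt _ _ h.1)
      hne₁ hprem with h | ⟨d₁, p₁, c₁, hd₁, hr₁, a₁, e₁, ha₁, he₁, kw1, kw3, hle, Rq, σq, hq,
        hq0⟩
    · exact h
    have hid₁ : Reach π St i d₁ := hip₀.trans hd₁
    have hlt₁ : d₁ < d₀ := lt_of_le_of_lt hd₁.le (prem_lt hp₀)
    have hp₁ : Prem π p₁ d₁ := by
      unfold Prem
      rw [hr₁]
      rfl
    have hw1 : 1 ≤ lv a₁ e₁ A ρ := hlow _ hid₁ hlt₁ a₁ e₁ kw1
    have hgood1 : ∀ R σ, (∃ r : ℤ, (1 ≤ r ∧ r ≤ g) ∧ lv a₀ e₀ R σ ≤ -r ∧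
        (g : ℤ) ∣ lv a₀ e₀ R σ + r) → lv a₀ e₀ R σ ≤ -1 := by
      rintro R σ ⟨r, ⟨h1, -⟩, h2, -⟩
      exact h2.trans (neg_le_neg h1)
    have hA₀e : 9 * ((A₀ \ A).card + evN D B 0) ≤ 900 * t := by
      generalize (A₀ \ A).card = u at *
      generalize evN D B 0 = v at *
      clear hf
      omega
    obtain ⟨-, hwle, γ, y, A₁, hγo, hγ3, hA₀₁, hSC₁, hA₁c, hcl₁, hy1, hy3, hPy⟩ :=
      hEv (Fin m) (Fin n) (vsF F) (ngF F) q D κ B (9 * tauM D B) 0 (T1 D B) (T2 D B) g A A₀ Rq ρ σq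
        a₀ a₁ e₀ e₁ x (fun r => 1 ≤ r ∧ r ≤ g) hE hf.s1 ha₀ ha₁ he₀ he₁ hAA₀ hSC₀ hA₀M hg1 hg3
        hcl₀ (hfine.mono hA₀e) (fun r hr => ⟨hr.1, by have := hr.2; omega⟩) (exists_res hg1) hx1
        hx3 hf.t1b hPx (by rw [hlv0]; simp) hw1
        (fun R σ h1 h2 h3 => hle R σ ⟨h1, h2, hgood1 R σ h3⟩) hq.1 hq.2.1
        (exists_res' hg1 hq.2.2) hq0
    have hA₁9 : (A₁ \ A).card ≤ 90 * t := by
      generalize (A₀ \ A).card = u at *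
      generalize (A₁ \ A).card = u1 at *
      generalize evN D B 0 = v at *
      clear hf
      omega
    have hA₁M : (A₁ \ A).card ≤ 90 * tauM D B := hA₁9.trans (Nat.mul_le_mul_left 90 htτ)
    have hAA₁ : A ⊆ A₁ := hAA₀.trans hA₀₁
    -- fine adjustments for the second line
    have hfine₁ := fine_second hK hE hf.k3 hAA₁ hA₀₁ hg1 hfine
      ((Nat.add_le_add_right (Nat.mul_le_mul_left 900 htτ) _).trans hf.f900) hcl₁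
    -- second step up
    have hne₂ : ∃ R₁ σ₁, Ext (vsF F) (ngF F) q A κ A ρ R₁ σ₁ ∧ A₁ ⊆ R₁ ∧
        ∃ r : ℤ, (Odd r ∧ 1 ≤ r ∧ r ≤ 2 * γ) ∧ lv a₁ e₁ R₁ σ₁ ≤ -r ∧
          (γ : ℤ) ∣ lv a₁ e₁ R₁ σ₁ + r := by
      obtain ⟨R₂, σ₂, h1, h2, h3⟩ := push_down hA2 hE (ρ := ρ) (e := e₁) (V₀ := evP B 0)
        (L := 6 * B) hAA₁ hSC₁.closed3 hA₁M ha₁ hy1 hwle (by push_cast; linarith) hf.t2a hPy hf.u2
      obtain ⟨r, hr1, hr2⟩ := exists_res2 hγo (lv a₁ e₁ R₂ σ₂)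
      refine ⟨R₂, σ₂, h1, h2, r, hr1, h3.trans (neg_le_neg ?_), hr2⟩
      have h5 : (γ : ℤ) ≤ 3 * B := by exact_mod_cast hγ3
      have h6 := hr1.2.2
      linarith
    have hprem₁ : ∀ R₁ σ₁, (Ext (vsF F) (ngF F) q A κ A ρ R₁ σ₁ ∧ A₁ ⊆ R₁ ∧
        ∃ r : ℤ, (Odd r ∧ 1 ≤ r ∧ r ≤ 2 * γ) ∧ lv a₁ e₁ R₁ σ₁ ≤ -r ∧
          (γ : ℤ) ∣ lv a₁ e₁ R₁ σ₁ + r) → Viol (π.line p₁) (pt R₁ σ₁) := by
      rintro R₁ σ₁ ⟨-, -, r, hr1, hr2, -⟩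
      exact kw3 _ _ (hr2.trans (neg_le_neg hr1.2.1))
    obtain ⟨-, hip₁⟩ : p₁ ∉ St ∧ Reach π St i p₁ := by
      obtain ⟨R₁, σ₁, h1⟩ := hne₂
      exact hgo hid₁ hr₁ ⟨R₁, σ₁, hPt _ _ h1.1, hprem₁ R₁ σ₁ h1⟩
    rcases d_step hAx hq1 hip₁ hstop hdiv
      (fun R₁ σ₁ => Ext (vsF F) (ngF F) q A κ A ρ R₁ σ₁ ∧ A₁ ⊆ R₁ ∧
        ∃ r : ℤ, (Odd r ∧ 1 ≤ r ∧ r ≤ 2 * γ) ∧ lv a₁ e₁ R₁ σ₁ ≤ -r ∧
          (γ : ℤ) ∣ lv a₁ e₁ R₁ σ₁ + r)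
      (fun R₁ σ₁ h => hPt _ _ h.1)
      hne₂ hprem₁ with h | ⟨d₂, p₂, c₂, hd₂, hr₂, a₂, e₂, ha₂, he₂, ku1, ku3, hle₂, Rq', σq',
        hq', hq0'⟩
    · exact h
    exfalso
    have hw2 : 1 ≤ lv a₂ e₂ A ρ := hlow _ (hip₁.trans hd₂)
      (lt_trans (lt_of_le_of_lt hd₂.le (prem_lt hp₁)) hlt₁) a₂ e₂ ku1
    have hA₁e : 9 * ((A₁ \ A).card + evN D B (evP B 0)) ≤ 900 * t := by
      generalize (A₁ \ A).card = u at *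
      generalize evN D B (evP B 0) = v at *
      clear hf
      omega
    obtain ⟨⟨r, hr1, hr2⟩, -⟩ :=
      hEv (Fin m) (Fin n) (vsF F) (ngF F) q D κ B (90 * tauM D B) (evP B 0) (T2 D B) 0 γ A A₁ Rq' ρ
        σq' a₁ a₂ e₁ e₂ y (fun r => Odd r ∧ 1 ≤ r ∧ r ≤ 2 * γ) hE hf.s2 ha₁ ha₂ he₁ he₂ hAA₁ hSC₁
        hA₁M hγo.pos hγ3
        (by
          intro i hi σ₁ hσ₁
          obtain ⟨z, -, hz⟩ := hcl₁ i hi σ₁ hσ₁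
          exact ⟨z, hz⟩)
        (hfine₁.mono hA₁e) (fun r hr => hr.2) (exists_res2 hγo) hy1 hy3 hf.t2b hPy
        (by rw [abs_of_nonneg (zero_le_one.trans hw1)]; exact hwle) hw2
        (fun R σ h1 h2 h3 => hle₂ R σ ⟨h1, h2, h3⟩) hq'.1 hq'.2.1 hq'.2.2 hq0'
    have h1 : Odd (γ : ℤ) := by exact_mod_cast hγo
    exact (Int.not_even_iff_odd.mpr hr2) (hr1.1.add_odd h1)
  · -- (N)
    rw [not_lt] at hbig
    obtain ⟨C, σ₂, hσ₂, hneg⟩ := const_case hK hE hbig hf.st he₀ hlv0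
    have hCκ : 3 * starN D B ≤ κ := by
      have := hf.st
      generalize starN D B = N at *
      clear hf
      omega
    have hRR : Ext (vsF F) (ngF F) q A κ C σ₂ C σ₂ := Ext.rfl' hσ₂.2.1 (hσ₂.2.2.1.trans hCκ)
    have hprem : ∀ R₁ σ₁, Ext (vsF F) (ngF F) q A κ C σ₂ R₁ σ₁ →
        Viol (π.line p₀) (pt R₁ σ₁) := fun R₁ σ₁ h => kv3 _ _ (hneg R₁ σ₁ h)
    obtain ⟨-, hip₀⟩ := hgo hd₀ hr₀ ⟨C, σ₂, hPt _ _ (t1 _ _ _ _ _ _ _ _ hσ₂ hRR),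
      hprem C σ₂ hRR⟩
    rcases d_step hAx hq1 hip₀ hstop hdiv
      (fun R₁ σ₁ => Ext (vsF F) (ngF F) q A κ C σ₂ R₁ σ₁)
      (fun R₁ σ₁ h => hPt _ _ (t1 _ _ _ _ _ _ _ _ hσ₂ h))
      ⟨C, σ₂, hRR⟩ hprem with h | ⟨d₁, p₁, c₁, hd₁, hr₁, a₁, e₁, ha₁, he₁, kw1, kw3, hle, Rq, σq,
        hq, hq0⟩
    · exact h
    · exfalso
      have hw1 : 1 ≤ lv a₁ e₁ A ρ := hlow _ (hip₀.trans hd₁)
        (lt_of_le_of_lt hd₁.le (prem_lt hp₀)) a₁ e₁ kw1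
      refine hNa (Fin m) (Fin n) (vsF F) (ngF F) q D κ (3 * starN D B) (3 * starN D B * B) A C Rq
        σ₂ σq a₁ e₁ hE hf.ti hσ₂.1 hσ₂.2.1 hσ₂.2.2.1 he₁ ?_ (fun R₁ σ₁ h => hle R₁ σ₁ h) hq hq0
      have h4 := (abs_le.mp (lv_bnd hE e₁ ha₁ hσ₂)).1
      push_cast at h4 ⊢
      have h5 : (3 : ℤ) * starN D B * B = B * (3 * starN D B) := by ring
      rw [h5]
      linarith

end Helper3.TP
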