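import Pool.Agent.Helper3.TL.Basic

/-!
# Project TP: rounding coefficients up to a power of n (MP_86d903_lc)

Statements of the modules, with proofs on paper in the docstrings. All constants are explicit functions of
`D` and `B`, polynomial in `B` for fixed `D`.

GOAL. The local theorem of `Helper3.TL.Dag` (`StLocalD`) with `κ ≤ (B + 2) ^ E`, `E` depending on `D` only.

SET-UP as in `Helper3.TL.St` (`Env vs q D κ A`, `Ext`, `Pool`, `Gadget`, `near`, `lv`, `sg`). The class of `i ∉ A`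
is `Cl (insert i A) \ A`: at most 3 elements (`card_class_le`), the classes are a partition of the complement of `A`
(FAM2 (1)). A functional `(a, c)` has at the point `(R, σ)` the value `lv a c R σ`.

THE NEW IDEAS. (1) A set `U` with `A ∪ U` EXPANDING can be added to `R` if it has LOGARITHMIC distance from `R \ A`
(FARG): balls of this radius are polynomial in `|R \ A|`. (2) To a set `Y` with `4/3`-expansion outside it one can add
at once many classes which have distance at least 93 from `Y \ A` and pairwise disjoint balls of radius 10 (SCAT).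
(3) SCALE: there is `1 ≤ g ≤ 3 B` such that at most `t` indices are bad for `g` (their class has a value of `v` not
divisible by `g`), but for `h` not dividing `g` more than `λ t` indices are bad for `h`, `λ` constant. (4) EV: upper
bounds for a functional at ALL points over `(A, ρ)` follow from bounds at the points containing a larger set `A'`,
by averaging over the two complementary extensions.
-/

open Finset
open MP86d903 (Valid Lit inside mem_inside pt flip Clause Ineq clauseIneq vsF ngF)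
open Helper80.SR (Exp Closed Cl Sm)
open Helper3.TL

namespace Helper3.TP

/-! ## Numbers -/

/-- The radius. -/
def rad (Y : ℕ) : ℕ := 23 * (Nat.log 2 Y + 1)

/-- The growth of balls of radius `rad Y + 1`. -/
def ball (D Y : ℕ) : ℕ := (2 * D + 1) ^ (rad Y + 1)

/-- Number of gadgets for ADJ2. -/
def adjT (D K J : ℕ) : ℕ := (K + J * 3) * ball D (2 * (K + J * 3 + 3)) + 1

def tightN (D M P : ℕ) : ℕ := 3 * ((M + 3 * P) * ball D (2 * (M + 3 * P + 3)))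

def tightK (D M P : ℕ) : ℕ := 3 * (M + tightN D M P)

/-- The sizes in TIGHT and NARR. -/
def tightS (D M P : ℕ) : ℕ := 3 * (tightK D M P + 1) + 3 * (M + 1) + 3 * P + 3

def badN (D P : ℕ) : ℕ := 3 * (3 * P * ball D (2 * (3 * P + 3)))

/-- The number of pieces of a fine adjustment. -/
def fineN (B : ℕ) : ℕ := 3 * B * (3 * (3 * B) ^ 3)

def popN (D B : ℕ) : ℕ := 9 * (fineN B * (2 * D + 1) ^ 20)

def lamD (D : ℕ) : ℕ := 2700 * (2 * D + 1) ^ 93 + 1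

def evP (B Hv : ℕ) : ℕ := 27 * B ^ 2 + 3 * B * Hv + 1

def evN (D B Hv : ℕ) : ℕ := badN D (evP B Hv)

def evK (D B Ym Hv : ℕ) : ℕ :=
  3 * (3 * evP B Hv + Ym) + 9 * (Ym + evN D B Hv) + 3 * fineN B

def evJ (D B Ym Hv : ℕ) : ℕ := Hv + B * evK D B Ym Hv + 9 * B

def evS (D B Ym Hv : ℕ) : ℕ :=
  81 * (Ym + evN D B Hv) + evK D B Ym Hv + 3 * evJ D B Ym Hv + 3 * evP B Hv + 10

def evT (D B Ym Hv T' : ℕ) : ℕ :=
  (6 * B + 1) * (adjT D (evK D B Ym Hv) (evJ D B Ym Hv) + Ym + 1 + T') + 1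

/-- MODULE RAD. Arithmetic. (1) `2 * 23 ^ 23 ≤ 24 ^ 23`, so `2 ^ l * 23 ^ (23 l) ≤ 24 ^ (23 l)`, with
`l = log₂ Y + 1`, `t ≤ Y < 2 ^ l`. (4) `2 D + 1 ≤ 2 ^ (2 D)` and `2 ^ (log₂ Y) ≤ Y` (`Y ≥ 1`). (5) the same. -/
def PRad : Prop :=
  (∀ Y t : ℕ, t ≤ Y → 23 ^ rad Y * t < 24 ^ rad Y) ∧
  (∀ Y Y' : ℕ, Y ≤ Y' → rad Y ≤ rad Y') ∧
  (∀ D Y Y' : ℕ, Y ≤ Y' → ball D Y ≤ ball D Y') ∧
  (∀ D : ℕ, ∃ E : ℕ, ∀ Y : ℕ, ball D Y ≤ (Y + 2) ^ E) ∧
  ∀ lam : ℕ, ∃ E : ℕ, ∀ b : ℕ, (lam + 1) ^ (Nat.log 2 b + 1) ≤ (b + 2) ^ E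

/-- MODULE SCALE. Proof: by induction on `j ≤ l`: either the conclusion holds (with `t = t₀ (lam + 1) ^ i`, some
`i < j`), or there is `g ≥ 2 ^ j` (`g ≥ 1`) with `p g ≤ t₀ (lam + 1) ^ j`. Step: if all `h ≥ 1` not dividing `g` have
`lam t < p h` (`t = t₀ (lam + 1) ^ j`) this `g` will do (`g ≤ b`, else `p 0 ≤ p g ≤ t₀ (lam + 1) ^ l`); otherwise take
`lcm g h ≥ 2 g`. For `j = l` one has `g ≥ 2 ^ l > b`, so `p 0 ≤ p g ≤ t₀ (lam + 1) ^ l`, a contradiction. -/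
def PScale : Prop := ∀ (p : ℕ → ℕ) (b lam t₀ l : ℕ), p 1 = 0 →
    (∀ g h, p (Nat.lcm g h) ≤ p g + p h) → (∀ g, b < g → p 0 ≤ p g) → b < 2 ^ l →
    t₀ * (lam + 1) ^ l < p 0 →
    ∃ g t, 1 ≤ g ∧ g ≤ b ∧ t₀ ≤ t ∧ t ≤ t₀ * (lam + 1) ^ l ∧ p g ≤ t ∧
      ∀ h, 1 ≤ h → ¬ h ∣ g → lam * t < p h

/-- MODULE ALPHA. The gcd of numbers in `[1, b]` is a short signed sum of them. Proof: `S` is nonempty
(else `h = 2 g` divides `g`); `g` is the gcd of `S`. Bezout: `g = ∑ β x * x` (induction on the finset, `Int.gcd_eq_gcd_ab`, or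
`Finset.gcd`). Fix `x₀ ∈ S`; replace `β x` by `β x % x₀ ∈ [0, x₀)` for `x ≠ x₀` and put the rest into the coefficient of
`x₀` (`(β x - β x % x₀) x = x₀ * (..)`): then `∑_{x ≠ x₀} α x ≤ b * b`, and
`|α x₀| x₀ ≤ g + ∑_{x ≠ x₀} α x * x ≤ x₀ + b * x₀ * b`, so `|α x₀| ≤ 1 + b ^ 2` and the total is `≤ 3 b ^ 3`
(`2 b ^ 2 + 1 ≤ 3 b ^ 3`). The list: `|α x|` copies of `(x, sign)`. -/
def PAlpha : Prop := ∀ (b : ℕ) (S : Finset ℕ) (g : ℕ), 1 ≤ g →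
    (∀ x ∈ S, 1 ≤ x ∧ x ≤ b ∧ g ∣ x) → (∀ h, 1 ≤ h → (∀ x ∈ S, h ∣ x) → h ∣ g) →
    ∃ α : List (ℕ × Bool), α.length ≤ 3 * b ^ 3 ∧ (∀ p ∈ α, p.1 ∈ S) ∧
      (α.map (fun p => sg p.2 * (p.1 : ℤ))).sum = g

section
variable {ι V : Type} [DecidableEq ι] [Fintype ι] [DecidableEq V] [Fintype V]

/-- Expansion by the factor `1 + 1 / ν` outside `A`. `SClosed vs q A` is `SC vs 2 q A`. -/
def SC (vs : ι → Finset V) (ν q : ℕ) (A : Finset V) : Prop :=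
  ∀ S : Finset ι, S.Nonempty → S.card ≤ q → (∀ c ∈ S, ¬ vs c ⊆ A) →
    (ν + 1) * S.card ≤ ν * (S.biUnion vs \ A).card

open Classical in
/-- The indices outside `A` whose class has a value of `a` not divisible by `h`. -/
noncomputable def bad (vs ng : ι → Finset V) (q : ℕ) (A : Finset V) (ρ : V → Bool)
    (a : V → ℤ) (h : ℕ) : Finset V :=
  univ.filter (fun i => i ∉ A ∧ ∃ σ₁, Ext vs ng q A 3 A ρ (Cl vs q (insert i A)) σ₁ ∧
    ¬ (h : ℤ) ∣ ∑ j ∈ Cl vs q (insert i A) \ A, a j * sg (σ₁ j))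

/-- Fine adjustment: at all points `(Y, ρY)` over `(A, ρ)` with `Y ⊇ A'` expanding the value can be
increased by `k g`, `k ≤ 3 B`. -/
def FineAdj (vs ng : ι → Finset V) (q κ : ℕ) (A : Finset V) (ρ : V → Bool) (a : V → ℤ) (g : ℕ)
    (A' : Finset V) (y B : ℕ) : Prop :=
  ∀ (Y : Finset V) (ρY : V → Bool) (k : ℕ) (c : ℤ), A' ⊆ Y → SC vs 3 q Y →
    Ext vs ng q A κ A ρ Y ρY → (Y \ A).card ≤ y → k ≤ 3 * B →
    ∃ R σ, Ext vs ng q A ((Y \ A).card + 3 * fineN B) Y ρY R σ ∧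
      lv a c R σ = lv a c Y ρY + k * g

end

/-! ## Far sets -/

/-- MODULE FARG. Let `X j = near A j (R \ A)`, `L = rad Y`. Suppose `R ∪ U` is not closed: there is `S ≠ ∅`, `|S| ≤ q`, no
clause of `S` inside `R ∪ U`, `|N(S) \ (R ∪ U)| ≤ |S|`; so `|S| ≤ Y`. Let `S j = {c ∈ S | vs c meets X j}`, `T j = S \ S j`.
For `j ≤ L`: `N(S j) \ R` has at least `|S j|` elements (`R` closed), is contained in `X (j + 1)`, so it is disjoint from
`U`; `8 |N(T j) \ (A ∪ U)| ≥ 9 |T j|`, and this set is disjoint from `R` (clauses of `T j` do not meet `X j ⊇ R \ A`). Both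
are subsets of `N(S) \ (R ∪ U)`; a common element is in `X (j + 1)` and in a clause of `T j`, so in a clause of
`T j \ T (j + 1)`: at most `3 (|T j| - |T (j + 1)|)`. So
`8 |S| ≥ 8 |S j| + 9 |T j| - 24 (|T j| - |T (j + 1)|)`, i.e. `24 |T (j + 1)| ≤ 23 |T j|`. Hence
`24 ^ L |T L| ≤ 23 ^ L |T 0| < 24 ^ L` (RAD (1)) and `T L = ∅`: then `N(S) \ R` is disjoint from `U` and has more than `|S|`
elements as `R` is closed: contradiction. The second statement as in `Helper80.TL.hFar2` (copy it): only the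
distance 1 is used. -/
def PFarG : Prop := ∀ (ι V : Type) [DecidableEq ι] [Fintype ι] [DecidableEq V] [Fintype V]
    (vs : ι → Finset V) (q Y : ℕ) (A R U : Finset V), (∀ c, (vs c).card = 3) → A ⊆ R →
    Closed vs q R → Disjoint U A → SC vs 8 q (A ∪ U) →
    (∀ S : Finset ι, S.card ≤ q → (∀ c ∈ S, ¬ vs c ⊆ R ∪ U) →
      (S.biUnion vs \ (R ∪ U)).card ≤ S.card → S.card ≤ Y) →
    Disjoint U (near vs A (rad Y + 1) (R \ A)) →
    Closed vs q (R ∪ U) ∧ ∀ c, vs c ⊆ R ∪ U → vs c ⊆ R ∨ vs c ⊆ A ∪ U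

/-- MODULE CLS. `|N(S) \ (A ∪ W)| > |S|` and `≥ |N(S) \ A| - 3 ≥ (3/2) |S| - 3`: use the first for `|S| ≤ 8`, the second
for `|S| ≥ 8`. -/
def PCls : Prop := ∀ (ι V : Type) [DecidableEq ι] [Fintype ι] [DecidableEq V] [Fintype V]
    (vs : ι → Finset V) (q : ℕ) (A W : Finset V), SClosed vs q A → Closed vs q (A ∪ W) →
    W.card ≤ 3 → SC vs 8 q (A ∪ W)

/-- MODULE FAR2. From FARG and CLS with `Y = 2 (M + 3)`: `3 |S| ≤ 2 |N(S) \ A| ≤ 2 (|S| + |R \ A| + |U|)` for `S ≠ ∅`. -/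
def PFar2 : Prop := ∀ (ι V : Type) [DecidableEq ι] [Fintype ι] [DecidableEq V] [Fintype V]
    (vs : ι → Finset V) (q D κ M : ℕ) (A R U : Finset V), Env vs q D κ A → A ⊆ R →
    Closed vs q R → (R \ A).card ≤ M → Disjoint U A → U.card ≤ 3 → Closed vs q (A ∪ U) →
    Disjoint U (near vs A (rad (2 * (M + 3)) + 1) (R \ A)) →
    Closed vs q (R ∪ U) ∧ ∀ c, vs c ⊆ R ∪ U → vs c ⊆ R ∨ vs c ⊆ A ∪ U

/-- MODULE FAR3. From FARG and CLS with `Y = 9` (`rad 9 = 92`): `4 |S| ≤ 3 |N(S) \ R| ≤ 3 (|S| + |U|)` for `S ≠ ∅`. -/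
def PFar3 : Prop := ∀ (ι V : Type) [DecidableEq ι] [Fintype ι] [DecidableEq V] [Fintype V]
    (vs : ι → Finset V) (q D κ : ℕ) (A R U : Finset V), Env vs q D κ A → A ⊆ R →
    SC vs 3 q R → Disjoint U A → U.card ≤ 3 → Closed vs q (A ∪ U) →
    Disjoint U (near vs A 93 (R \ A)) →
    Closed vs q (R ∪ U) ∧ ∀ c, vs c ⊆ R ∪ U → vs c ⊆ R ∨ vs c ⊆ A ∪ U

/-- MODULE CLO3. Let `x = |X \ A|`. Among all `Y ⊇ X` with `3 (|Y| - |X|) ≤ 4 (e(Y) - e(X))` (write it with sums)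
and `|Y \ A| ≤ 9 x` take one of maximal cardinality (`e` = number of clauses inside). Suppose `S` violates `SC 3` for `Y`:
`3 |N(S) \ Y| < 4 |S|`. As `A` is strongly closed `3 |S| ≤ 2 |N(S) \ A| ≤ 2 |N(S) \ Y| + 2 |Y \ A|`, so `|S| ≤ 6 |Y \ A| ≤ 54 x`.
`Y' = Y ∪ N(S)` is larger than `Y`, `e(Y') ≥ e(Y) + |S|`, so the first condition holds; `|Y' \ A| ≤ 9 x + 72 x = 81 x ≤ κ`.
Let `S'` = the clauses inside `Y'` and not inside `A`: `|S'| ≤ e(Y') ≤ |Y'| ≤ |A| + κ ≤ M₀ ≤ q` (`card_inside_le`), so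
`3 |S'| ≤ 2 |Y' \ A|`, and `e(Y') - e(X) ≤ |S'|` (as `e(X) ≥ e(A)`); so
`3 |Y' \ A| ≤ 3 x + 4 |S'| ≤ 3 x + (8/3) |Y' \ A|`, i.e. `|Y' \ A| ≤ 9 x`. So `Y'` qualifies: contradiction. Compare
`Helper3.TL.hClo2`. -/
def PClo3 : Prop := ∀ (ι V : Type) [DecidableEq ι] [Fintype ι] [DecidableEq V] [Fintype V]
    (vs : ι → Finset V) (q D κ : ℕ) (A X : Finset V), Env vs q D κ A → A ⊆ X →
    81 * (X \ A).card ≤ κ →
    ∃ Y, SC vs 3 q Y ∧ X ⊆ Y ∧ (Y \ A).card ≤ 9 * (X \ A).card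

/-! ## Adjustments with logarithmic distance -/

/-- MODULE ADJ1. As `Helper80.TL.hAdj1` (copy the proof), with FAR2 of this file. -/
def PAdj1 : Prop := ∀ (ι V : Type) [DecidableEq ι] [Fintype ι] [DecidableEq V] [Fintype V]
    (vs ng : ι → Finset V) (q D κ M : ℕ) (A R₁ U : Finset V) (σ₁ s : V → Bool),
    Env vs q D κ A → A ⊆ R₁ → Closed vs q R₁ → (R₁ \ A).card ≤ M → Disjoint U A → U.card ≤ 3 →
    Closed vs q (A ∪ U) → Bal vs ng A (A ∪ U) s →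
    Disjoint U (near vs A (rad (2 * (M + 3)) + 1) (R₁ \ A)) → ∀ b : Bool,
    ∃ σ₂, Ext vs ng q A (M + 3) R₁ σ₁ (R₁ ∪ U) σ₂ ∧ ∀ (a : V → ℤ) (c : ℤ),
      lv a c (R₁ ∪ U) σ₂ = lv a c R₁ σ₁ + sg b * ∑ i ∈ U, a i * sg (s i)

/-- MODULE ADJ2. As `Helper3.TL.hAdj2` (copy the proof) with `m = 3`, without `Z`, with the radius
`rad (2 (K + 3 J + 3)) + 1`. -/
def PAdj2 : Prop := ∀ (ι V : Type) [DecidableEq ι] [Fintype ι] [DecidableEq V] [Fintype V]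
    (vs ng : ι → Finset V) (q D κ K J T : ℕ) (A R₁ : Finset V)
    (σ₁ : V → Bool) (a a' : V → ℤ) (g g' j : ℤ),
    Env vs q D κ A → A ⊆ R₁ → Closed vs q R₁ → (R₁ \ A).card ≤ K → |j| ≤ J →
    adjT D K J ≤ T → Pool vs ng q A T 3 a a' g g' →
    ∃ R₂ σ₂, Ext vs ng q A (K + J * 3) R₁ σ₁ R₂ σ₂ ∧
      (∀ c, lv a c R₂ σ₂ = lv a c R₁ σ₁ + j * g) ∧ ∀ c, lv a' c R₂ σ₂ = lv a' c R₁ σ₁ + j * g'

/-- MODULE POOL. As `Helper3.TL.hPool` (copy the proof) with `m = 3` and an explicit constant. -/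
def PPool : Prop := ∀ (ι V : Type) [DecidableEq ι] [Fintype ι] [DecidableEq V] [Fintype V]
    (vs ng : ι → Finset V) (q B T T' : ℕ) (A : Finset V)
    (a a₀ a' : V → ℤ) (g g₀ : ℤ), (∀ i, |a' i| ≤ B) → (6 * B + 1) * T' + 1 ≤ T →
    Pool vs ng q A T 3 a a₀ g g₀ →
    ∃ g' : ℤ, |g'| ≤ 3 * B ∧ Pool vs ng q A T' 3 a a' g g'

/-- MODULE VPOP. As `Helper3.TL.hStart1` for `g = 0`, `m = 0` (copy this part), with explicit constants. -/
def PVpop : Prop := ∀ (ι V : Type) [DecidableEq ι] [Fintype ι] [DecidableEq V] [Fintype V]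
    (vs ng : ι → Finset V) (q D κ B T : ℕ) (A : Finset V) (ρ : V → Bool) (a : V → ℤ),
    Env vs q D κ A → 3 ≤ κ → (∀ i, |a i| ≤ B) →
    9 * (3 * B * T + 1) < (bad vs ng q A ρ a 0).card →
    ∃ x : ℤ, 1 ≤ x ∧ x ≤ 3 * B ∧ Pool vs ng q A T 3 a a x x

/-- MODULE FAM4. As `Helper80.TL.hFam4` (copy the proof). -/
def PFam4 : Prop := ∀ (ι V : Type) [DecidableEq ι] [Fintype ι] [DecidableEq V] [Fintype V]
    (vs ng : ι → Finset V) (q D κ M K : ℕ) (A R : Finset V) (σ : V → Bool) (i : V),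
    Env vs q D κ A → 3 ≤ κ → A ⊆ R → Closed vs q R → (R \ A).card ≤ M → i ∉ R →
    Disjoint (Cl vs q (insert i A) \ A) (near vs A (rad (2 * (M + 3)) + 1) (R \ A)) →
    (Cl vs q (insert i A) \ A).card ≤ 3 ∧ Disjoint (Cl vs q (insert i A) \ A) R ∧
    Cl vs q (insert i R) = R ∪ (Cl vs q (insert i A) \ A) ∧
    ∀ σ₁, Ext vs ng q A K R σ (Cl vs q (insert i R)) σ₁ →
      Bal vs ng A (Cl vs q (insert i A)) σ₁

/-- MODULE TIGHT. As `Helper3.TL.hTight` (copy the proof), with explicit constants, `P = H + C + 1`, and only one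
bound `κ` for the sizes. -/
def PTight : Prop := ∀ (ι V : Type) [DecidableEq ι] [Fintype ι] [DecidableEq V] [Fintype V]
    (vs ng : ι → Finset V) (q D κ M C H : ℕ) (A R Rq : Finset V) (σ σq : V → Bool)
    (d : V → ℤ) (d₀ μ : ℤ),
    Env vs q D κ A → tightS D M (H + C + 1) ≤ κ → A ⊆ R → Closed vs q R →
    (R \ A).card ≤ M → |μ| ≤ H → -(C : ℤ) ≤ lv d d₀ R σ →
    (∀ R₁ σ₁, Ext vs ng q A κ R σ R₁ σ₁ → lv d d₀ R₁ σ₁ ≤ μ) →
    Ext vs ng q A κ R σ Rq σq → μ ≤ lv d d₀ Rq σq →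
    ∃ R₀ σ₀, Ext vs ng q A (tightK D M (H + C + 1)) R σ R₀ σ₀ ∧
      ∀ K' R₂ σ₂, K' ≤ κ → Ext vs ng q A K' R₀ σ₀ R₂ σ₂ → lv d d₀ R₂ σ₂ = μ

/-- MODULE NARR. As `Helper3.TL.hNarr` (copy the proof). -/
def PNarr : Prop := ∀ (ι V : Type) [DecidableEq ι] [Fintype ι] [DecidableEq V] [Fintype V]
    (vs ng : ι → Finset V) (q D κ M C : ℕ) (A R Rq : Finset V) (σ σq : V → Bool) (w : V → ℤ)
    (c : ℤ),
    Env vs q D κ A → tightS D M (C + 1) ≤ κ → A ⊆ R → Closed vs q R → (R \ A).card ≤ M →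
    Odd c → -(C : ℤ) ≤ lv w c R σ →
    (∀ R₁ σ₁, Ext vs ng q A κ R σ R₁ σ₁ → lv w c R₁ σ₁ ≤ 0) →
    Ext vs ng q A κ R σ Rq σq → lv w c Rq σq ≠ 0

/-- MODULE BADN. A functional bounded above by `H` at all small points over `(A, ρ)` and `≥ -C` at `(A, ρ)` has few
classes with a nonzero value. Proof (part (1) of `Helper3.TL.hTight`, simpler): otherwise build
`(R_t, σ_t)`, `t ≤ P`, extending `(A, ρ)` with `|R_t \ A| ≤ 3 t` and `lv d ≥ -C + t`: the indices `i` whose class meets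
`near A (rad (2 (3 P + 3)) + 1) (R_t \ A)` are in the classes of the elements of this set (FAM2 (1)), so at most
`badN D P` of them; choose a bad `i` with class `W` disjoint from it and apply ADJ1 with `U = W` and the sign that
increases `lv d`. -/
def PBadN : Prop := ∀ (ι V : Type) [DecidableEq ι] [Fintype ι] [DecidableEq V] [Fintype V]
    (vs ng : ι → Finset V) (q D κ P : ℕ) (A : Finset V) (ρ : V → Bool) (d : V → ℤ)
    (d₀ C H : ℤ), Env vs q D κ A → 3 * P + 3 ≤ κ → H + C < P → -C ≤ lv d d₀ A ρ →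
    (∀ R σ, Ext vs ng q A (3 * P) A ρ R σ → lv d d₀ R σ ≤ H) →
    (bad vs ng q A ρ d 0).card ≤ badN D P

/-- MODULE CONST. `R₁ \ R₀` is a union of classes at `A` (if `i ∈ R₁ \ R₀`, its class is inside `R₁`, and disjoint
from `R₀` by FAM2 (1)), `(Cl (insert i A), σ₁)` is an extension of `(A, ρ)` (FAM1 (3)), so the class sums are divisible
by `h`; FAM2 (2) at `A` with `U = R₁ \ R₀`; FAM1 (5) for `R₁` and `R₀` (FAM1 (3)) over `A`. Compare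
`Helper3.TL.hStart2`. -/
def PConst : Prop := ∀ (ι V : Type) [DecidableEq ι] [Fintype ι] [DecidableEq V] [Fintype V]
    (vs ng : ι → Finset V) (q D κ : ℕ) (A R₀ R₁ : Finset V) (ρ σ₁ : V → Bool) (d : V → ℤ)
    (c h : ℤ), Env vs q D κ A → 3 ≤ κ → Ext vs ng q A κ A ρ R₁ σ₁ → A ⊆ R₀ → R₀ ⊆ R₁ →
    Closed vs q R₀ →
    (∀ i ∈ R₁ \ R₀, ∀ σ', Ext vs ng q A 3 A ρ (Cl vs q (insert i A)) σ' →
      h ∣ ∑ j ∈ Cl vs q (insert i A) \ A, d j * sg (σ' j)) →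
    h ∣ lv d c R₁ σ₁ - lv d c R₀ σ₁

/-! ## Adjustments with constant distance -/

/-- MODULE SCAT. Let `R = Y ∪ ⋃ W k`. By strong induction on `|S|`: if `|S| ≤ q`, no clause of `S` is inside `R`, then
`|N(S) \ R| ≥ |S|`, and `> |S|` if `S ≠ ∅`. Let `S ≠ ∅`, `K` = the set of the `k` such that some clause of `S` meets `W k`, and
`S k j = {c ∈ S | vs c meets near A j (W k)}` (increasing in `j`).
(a) `S k j = S k (j + 1) =: P` for some `k ∈ K`, `j ≤ 8`. `P ≠ ∅`, `N(P) \ A ⊆ near A (j + 1) (W k)`, no clause of `S \ P`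
meets `near A (j + 1) (W k)`; so `N(P) \ R` and `N(S \ P) \ R` are disjoint, and `N(P) \ R = N(P) \ (Y ∪ W k)` (the balls
of radius 10 are disjoint), of cardinality `> |P|`; induction for `S \ P`.
(b) otherwise `|S k 9| ≥ 10` for all `k ∈ K`; the sets `S k 9` are pairwise disjoint (a clause in two of them has a
variable outside `A`, as it is not inside `R`, and this variable is in both balls of radius 10), so `10 |K| ≤ |S|`, and
`|N(S) \ R| ≥ |N(S) \ Y| - 3 |K| ≥ (4/3) |S| - (3/10) |S| > |S|`. -/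
def PScat : Prop := ∀ (ι V : Type) [DecidableEq ι] [Fintype ι] [DecidableEq V] [Fintype V]
    (vs : ι → Finset V) (q f : ℕ) (A Y : Finset V) (W : Fin f → Finset V),
    A ⊆ Y → SC vs 3 q Y →
    (∀ k, Disjoint (W k) Y ∧ (W k).card ≤ 3 ∧ Closed vs q (Y ∪ W k)) →
    (∀ k l, k ≠ l → Disjoint (near vs A 10 (W k)) (near vs A 10 (W l))) →
    Closed vs q (Y ∪ univ.biUnion W)

/-- MODULE GREEDY. Choose `i k` one after another (or by induction on `f`, with the sets chosen before as a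
parameter). `near` is additive in `X` and symmetric: for `u, v ∉ A`, `u ∈ near A l {v}` iff `v ∈ near A l {u}`, and
`near A 10 (near A 10 X) = near A 20 X`; so if the balls of radius 10 of two classes `W, W'` meet then `W` meets
`near A 20 W'`. The `i` whose class meets `near A 20 (W₁ ∪ .. ∪ W_k)` are in the classes (FAM2 (1)) of the elements of this
set: at most `3 * (3 k * (2 D + 1) ^ 20) ≤ 9 f (2 D + 1) ^ 20` of them (FAR1). -/
def PGreedy : Prop := ∀ (ι V : Type) [DecidableEq ι] [Fintype ι] [DecidableEq V] [Fintype V]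
    (vs : ι → Finset V) (q D κ f : ℕ) (A : Finset V) (Q : Fin f → Finset V),
    Env vs q D κ A → 3 ≤ κ → (∀ k, ∀ i ∈ Q k, i ∉ A) →
    (∀ k, 9 * (f * (2 * D + 1) ^ 20) < (Q k).card) →
    ∃ i : Fin f → V, (∀ k, i k ∈ Q k) ∧ ∀ k l, k ≠ l →
      Disjoint (near vs A 10 (Cl vs q (insert (i k) A) \ A))
        (near vs A 10 (Cl vs q (insert (i l) A) \ A))

/-- MODULE FINE. GREEDY, FAR3 (each class `W k` is disjoint from `near A 93 (Y \ A) ⊇ Y \ A`, so from `Y`), SCAT. `R = Y ∪ ⋃ W k`;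
`σ = ρY` on `Y`, `σ = s k (i k)` or its complement (if `b k = false`) on `W k`. Balance: a clause inside `R` and not inside
`Y` meets some `W k`, and no other `W l` (else an element of `W l` is in `near A 1 (W k)`), so it is inside `Y ∪ W k`,
so inside `A ∪ W k` (FAR3), and not inside `A`. Values: `lv_ext` of `Helper80.TL` and `sum_biUnion`. -/
def PFine : Prop := ∀ (ι V : Type) [DecidableEq ι] [Fintype ι] [DecidableEq V] [Fintype V]
    (vs ng : ι → Finset V) (q D κ f : ℕ) (A Y : Finset V) (ρY : V → Bool)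
    (Q : Fin f → Finset V) (s : Fin f → V → V → Bool) (b : Fin f → Bool),
    Env vs q D κ A → 3 ≤ κ → A ⊆ Y → SC vs 3 q Y →
    (∀ k, ∀ i ∈ Q k, i ∉ A ∧
      Disjoint (Cl vs q (insert i A) \ A) (near vs A 93 (Y \ A)) ∧
      Bal vs ng A (Cl vs q (insert i A)) (s k i)) →
    (∀ k, 9 * (f * (2 * D + 1) ^ 20) < (Q k).card) →
    ∃ (i : Fin f → V) (R : Finset V) (σ : V → Bool), (∀ k, i k ∈ Q k) ∧
      Ext vs ng q A ((Y \ A).card + 3 * f) Y ρY R σ ∧ ∀ (a : V → ℤ) (c : ℤ),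
        lv a c R σ = lv a c Y ρY +
          ∑ k, sg (b k) * ∑ j ∈ Cl vs q (insert (i k) A) \ A, a j * sg (s k (i k) j)

/-- MODULE FP. Let `Y` be as in `FineAdj`, `F` = the set of all `i ∉ A` whose class is disjoint from
`near A 93 (Y \ A)`. The other `i ∉ A` are at most `3 * 900 t * (2 D + 1) ^ 93` (FAM2 (1), FAR1). For `x ∈ [1, 3 B]` let
`Q x` be the set of all `i ∈ F` with a class sum of absolute value `x`, and `S = {x | popN D B < |Q x|}`.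
(i) `g ∣ x` for `x ∈ S`: `i ∈ Q x` is not in `Y ⊇ bad g`. (ii) if `h ≥ 1` divides all `x ∈ S` then `h ∣ g`: otherwise
`|bad h ∩ F| > lamD D * t - 2700 (2 D + 1) ^ 93 t = t ≥ 3 B popN + 1`, and by pigeonhole there is `x ∈ [1, 3 B]`, `¬ h ∣ x`, with
`|Q x| > popN D B`. ALPHA (`b = 3 B`) gives a list; take it `k` times: length `f ≤ fineN B`. FINE with `Q = Q x`, `s` = an
extension with class sum exactly `x` (complement, `Bal.compl`, `sum_compl'` of `Helper3.TL.M_START1`). -/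
def PFP : Prop := ∀ (ι V : Type) [DecidableEq ι] [Fintype ι] [DecidableEq V] [Fintype V]
    (vs ng : ι → Finset V) (q D κ B g t : ℕ) (A A' : Finset V) (ρ : V → Bool) (a : V → ℤ),
    Env vs q D κ A → 3 ≤ κ → (∀ i, |a i| ≤ B) → 1 ≤ g → 3 * B * popN D B + 1 ≤ t →
    A ⊆ A' → bad vs ng q A ρ a g ⊆ A' →
    (∀ h, 1 ≤ h → ¬ h ∣ g → lamD D * t < (bad vs ng q A ρ a h).card) →
    FineAdj vs ng q κ A ρ a g A' (900 * t) B

/-! ## The event lemma -/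

/-- MODULE EV. `v = (a, c)`: all classes outside `A'` have values of `v` divisible by `g`. A point `(R, σ)` over `(A, ρ)` with
`A' ⊆ R` is GOOD if `v ≤ -r`, `g ∣ v + r` for some `r` with `Q r`. `w = (w, cw)` is `≤ 0` at all good points and `= 0` at the good
point `(Rq, σq)`; `w ≥ 1` at `(A, ρ)`. Write `P = evP B Hv`, `N = evN D B Hv`.
(1) POOL: `T₁ = adjT D K J + Ym + 1 + T'` gadgets with values `(x, y)` of `(v, w)`, `|y| ≤ 3 B` (`K = evK`, `J = evJ`).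
(2) `y ≥ 0`: take an extension `(A', ρ')` of `(A, ρ)` (FAM1 (4)), `v ≤ Hv + B Ym`, `w ≥ 1 - B Ym` there (FAM1 (5)); ADJ2 with
`j = -(Hv + B Ym + 6 B)`: `v ≤ -2 g`, so a good point: `w ≤ 0`. If `y ≤ -1` then `w ≥ 1 - B Ym + (Hv + B Ym + 6 B) ≥ 1`.
(3) `d = x w - y v` (form `x w i - y a i`, constant `x cw - y c`; `Helper3.TL.lv_lin`). For every point `(R, σ) ⊇ A'` over
`(A, ρ)`, `|R \ A| ≤ 3 (3 P + Ym)`: `lv d ≤ 27 B ^ 2`. Proof: ADJ2 with `j` such that `-2 g - x < v ≤ -2 g`: good, `w ≤ 0`, `d` is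
unchanged, `d = x w - y v ≤ y (2 g + x)`. For every point `(R, σ)` over `(A, ρ)` with `|R \ A| ≤ 3 P`: let
`R⁺ = Cl (R ∪ (A' \ A))` (CLO1), `σ⁺` an extension and its complement: `lv d (R)` is the average of two values `≤ 27 B ^ 2`.
(4) At `(A, ρ)`: `lv d ≥ x - y Hv ≥ - 3 B Hv`; BADN: `|bad d 0| ≤ N`. Also `x w (A) ≤ 27 B ^ 2 + 3 B Hv`, so `w (A) ≤ P`; and `y ≥ 1` since
for `y = 0` the bound in (3) is 0, but `lv d (A) = x w (A) ≥ 1`.
(5) `A'' = CLO3 (A' ∪ bad d 0)`, `|A'' \ A| ≤ 9 (|A' \ A| + N)`: all classes outside `A''` have `d`-value 0.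
(6) `g ∣ x`: one of the (more than `|A' \ A|`) gadgets `U` is disjoint from `A'`; CONST with `R₀ = A`, `R₁ = A ∪ U`. FineAdj at
`A''` (any extension of `(A, ρ)`) with `k = 1`: `v` increases by `g`, `d` is constant (CONST), so `w` increases by an integer
`γ` with `x γ = y g`. `1 ≤ γ ≤ y` as `1 ≤ g ≤ x`.
(7) classes outside `A''`: `v`-value `g z`, and `x * (w-value) = y g z = x γ z`: the `w`-value is `γ z`.
(8) `R₀ = Rq ∩ A''` (closed, `⊇ A'`), CONST: `lv d (R₀, σq) = lv d (Rq, σq) = -y v (Rq) ≥ y r`, and `v (R₀, σq) ≡ v (Rq) ≡ -r` modulo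
`g`. An extension `(A'', ρ'')` of `(R₀, σq)` (FAM1 (4), (2)) with `lv d ≥ lv d (R₀, σq) ≥ y r`; `v ≡ -r` modulo `g` (CONST):
`v (A'', ρ'') = -r + g t`. With `x = g x'`, `k = (-t) mod x'` (`0 ≤ k < x' ≤ 3 B`), FineAdj: `v = -r + g (t + k)`, `x' ∣ t + k`; ADJ2 with
`j = -(t + k) / x'`: a point with `v = -r`: good, `w ≤ 0`, and `d` unchanged (CONST): `x w + y r ≥ y r`, so `w = 0` and
`lv d (A'', ρ'') = y r`. So `x w (A'', ρ'') = y r + y (-r + g t) = x γ t`: `w (A'', ρ'') = γ t`.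
(9) FAM3 at `(A'', ρ'')` (the hypothesis on the classes at `A''` by CONST, FAM1 (5), and (7): the `v`-value is `g z`, and
`x * (w-value) = y * (v-value)`): `-r + g t + 1 + g N` and `γ t + 1 + γ N` are even: `γ (t - N)` is odd, so `γ` is odd, `t - N` is odd, and
`r + g` is odd. -/
def PEv : Prop := ∀ (ι V : Type) [DecidableEq ι] [Fintype ι] [DecidableEq V] [Fintype V]
    (vs ng : ι → Finset V) (q D κ B Ym Hv T T' g : ℕ) (A A' Rq : Finset V) (ρ σq : V → Bool)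
    (a w : V → ℤ) (c cw x : ℤ) (Q : ℤ → Prop),
    Env vs q D κ A → evS D B Ym Hv ≤ κ → (∀ i, |a i| ≤ B) → (∀ i, |w i| ≤ B) → Odd c → Odd cw →
    A ⊆ A' → SC vs 3 q A' → (A' \ A).card ≤ Ym → 1 ≤ g → g ≤ 3 * B →
    (∀ i ∉ A', ∀ σ₁, Ext vs ng q A 3 A ρ (Cl vs q (insert i A)) σ₁ →
      (g : ℤ) ∣ ∑ j ∈ Cl vs q (insert i A) \ A, a j * sg (σ₁ j)) →
    FineAdj vs ng q κ A ρ a g A' (9 * ((A' \ A).card + evN D B Hv)) B →
    (∀ r, Q r → 1 ≤ r ∧ r ≤ 2 * g) → (∀ z : ℤ, ∃ r, Q r ∧ (g : ℤ) ∣ z + r) →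
    1 ≤ x → x ≤ 3 * B → evT D B Ym Hv T' ≤ T → Pool vs ng q A T 3 a a x x →
    |lv a c A ρ| ≤ Hv → 1 ≤ lv w cw A ρ →
    (∀ R σ, Ext vs ng q A κ A ρ R σ → A' ⊆ R →
      (∃ r, Q r ∧ lv a c R σ ≤ -r ∧ (g : ℤ) ∣ lv a c R σ + r) → lv w cw R σ ≤ 0) →
    Ext vs ng q A κ A ρ Rq σq → A' ⊆ Rq →
    (∃ r, Q r ∧ lv a c Rq σq ≤ -r ∧ (g : ℤ) ∣ lv a c Rq σq + r) → lv w cw Rq σq = 0 →
    (∃ r, Q r ∧ Odd (r + g)) ∧ lv w cw A ρ ≤ evP B Hv ∧
    ∃ (γ : ℕ) (y : ℤ) (A'' : Finset V), Odd γ ∧ γ ≤ 3 * B ∧ A' ⊆ A'' ∧ SC vs 3 q A'' ∧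
      (A'' \ A).card ≤ 9 * ((A' \ A).card + evN D B Hv) ∧
      (∀ i ∉ A'', ∀ σ₁, Ext vs ng q A 3 A ρ (Cl vs q (insert i A)) σ₁ → ∃ z : ℤ,
        ∑ j ∈ Cl vs q (insert i A) \ A, a j * sg (σ₁ j) = g * z ∧
        ∑ j ∈ Cl vs q (insert i A) \ A, w j * sg (σ₁ j) = γ * z) ∧
      1 ≤ y ∧ y ≤ 3 * B ∧ Pool vs ng q A T' 3 w w y y

/-- MODULE EVA. Parts (1) to (4) of the proof of EV. -/
def PEvA : Prop := ∀ (ι V : Type) [DecidableEq ι] [Fintype ι] [DecidableEq V] [Fintype V]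
    (vs ng : ι → Finset V) (q D κ B Ym Hv T T' g : ℕ) (A A' : Finset V) (ρ : V → Bool)
    (a w : V → ℤ) (c cw x : ℤ) (Q : ℤ → Prop),
    Env vs q D κ A → evS D B Ym Hv ≤ κ → (∀ i, |a i| ≤ B) → (∀ i, |w i| ≤ B) →
    A ⊆ A' → SC vs 3 q A' → (A' \ A).card ≤ Ym → 1 ≤ g → g ≤ 3 * B →
    (∀ r, Q r → 1 ≤ r ∧ r ≤ 2 * g) → (∀ z : ℤ, ∃ r, Q r ∧ (g : ℤ) ∣ z + r) →
    1 ≤ x → x ≤ 3 * B → evT D B Ym Hv T' ≤ T → Pool vs ng q A T 3 a a x x →
    |lv a c A ρ| ≤ Hv → 1 ≤ lv w cw A ρ →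
    (∀ R σ, Ext vs ng q A κ A ρ R σ → A' ⊆ R →
      (∃ r, Q r ∧ lv a c R σ ≤ -r ∧ (g : ℤ) ∣ lv a c R σ + r) → lv w cw R σ ≤ 0) →
    lv w cw A ρ ≤ evP B Hv ∧ ∃ y : ℤ, 1 ≤ y ∧ y ≤ 3 * B ∧
      Pool vs ng q A (adjT D (evK D B Ym Hv) (evJ D B Ym Hv) + Ym + 1 + T') 3 a w x y ∧
      (bad vs ng q A ρ (fun i => x * w i - y * a i) 0).card ≤ evN D B Hv

/-- MODULE EVB. Parts (5) to (9) of the proof of EV. -/
def PEvB : Prop := ∀ (ι V : Type) [DecidableEq ι] [Fintype ι] [DecidableEq V] [Fintype V]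
    (vs ng : ι → Finset V) (q D κ B Ym Hv T g : ℕ) (A A' Rq : Finset V) (ρ σq : V → Bool)
    (a w : V → ℤ) (c cw x y : ℤ) (Q : ℤ → Prop),
    Env vs q D κ A → evS D B Ym Hv ≤ κ → (∀ i, |a i| ≤ B) → Odd c → Odd cw →
    A ⊆ A' → SC vs 3 q A' → (A' \ A).card ≤ Ym → 1 ≤ g → g ≤ 3 * B →
    (∀ i ∉ A', ∀ σ₁, Ext vs ng q A 3 A ρ (Cl vs q (insert i A)) σ₁ →
      (g : ℤ) ∣ ∑ j ∈ Cl vs q (insert i A) \ A, a j * sg (σ₁ j)) →
    FineAdj vs ng q κ A ρ a g A' (9 * ((A' \ A).card + evN D B Hv)) B →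
    (∀ r, Q r → 1 ≤ r ∧ r ≤ 2 * g) →
    1 ≤ x → x ≤ 3 * B → 1 ≤ y → y ≤ 3 * B →
    adjT D (evK D B Ym Hv) (evJ D B Ym Hv) + Ym + 1 ≤ T → Pool vs ng q A T 3 a w x y →
    (bad vs ng q A ρ (fun i => x * w i - y * a i) 0).card ≤ evN D B Hv →
    |lv a c A ρ| ≤ Hv →
    (∀ R σ, Ext vs ng q A κ A ρ R σ → A' ⊆ R →
      (∃ r, Q r ∧ lv a c R σ ≤ -r ∧ (g : ℤ) ∣ lv a c R σ + r) → lv w cw R σ ≤ 0) →
    Ext vs ng q A κ A ρ Rq σq → A' ⊆ Rq →
    (∃ r, Q r ∧ lv a c Rq σq ≤ -r ∧ (g : ℤ) ∣ lv a c Rq σq + r) → lv w cw Rq σq = 0 →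
    (∃ r, Q r ∧ Odd (r + g)) ∧
    ∃ (γ : ℕ) (A'' : Finset V), Odd γ ∧ γ ≤ 3 * B ∧ A' ⊆ A'' ∧ SC vs 3 q A'' ∧
      (A'' \ A).card ≤ 9 * ((A' \ A).card + evN D B Hv) ∧
      (∀ i ∉ A'', ∀ σ₁, Ext vs ng q A 3 A ρ (Cl vs q (insert i A)) σ₁ → ∃ z : ℤ,
        ∑ j ∈ Cl vs q (insert i A) \ A, a j * sg (σ₁ j) = g * z ∧
        ∑ j ∈ Cl vs q (insert i A) \ A, w j * sg (σ₁ j) = γ * z)

end Helper3.TP
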